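import Mathlib
import Pool.Agent.Helper40.Lin.Defs

open scoped Matrix
open Pool.Agent.Helper40.Lin

namespace Pool.Agent.Helper97.Lin

universe u v

theorem unb_mnorm_nonneg {k : Type*} [NormedField k] {m : ℕ} (M : Matrix (Fin m) (Fin m) k) :
    0 ≤ mnorm M :=
  Finset.sum_nonneg fun _ _ => Finset.sum_nonneg fun _ _ => norm_nonneg _

/-- the operator norm (for the sup norm) is at most `mnorm` -/
theorem unb_mulVec_le {k : Type*} [NormedField k] {m : ℕ} (M : Matrix (Fin m) (Fin m) k)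
    (v : Fin m → k) : ‖M *ᵥ v‖ ≤ mnorm M * ‖v‖ := by
  rw [pi_norm_le_iff_of_nonneg (mul_nonneg (unb_mnorm_nonneg M) (norm_nonneg v))]
  intro i
  rw [Matrix.mulVec, dotProduct]
  refine (norm_sum_le _ _).trans ?_
  calc ∑ j, ‖M i j * v j‖ ≤ ∑ j, ‖M i j‖ * ‖v‖ := by
        refine Finset.sum_le_sum fun j _ => ?_
        rw [norm_mul]
        exact mul_le_mul_of_nonneg_left (norm_le_pi_norm v j) (norm_nonneg _)
    _ = (∑ j, ‖M i j‖) * ‖v‖ := by rw [Finset.sum_mul]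
    _ ≤ mnorm M * ‖v‖ := by
        refine mul_le_mul_of_nonneg_right ?_ (norm_nonneg v)
        exact Finset.single_le_sum (f := fun i => ∑ j, ‖M i j‖)
          (fun i _ => Finset.sum_nonneg fun _ _ => norm_nonneg _) (Finset.mem_univ i)

theorem unb_eig {k : Type*} [NormedField k] {m : ℕ} (M : Matrix (Fin m) (Fin m) k)
    (v : Fin m → k) (hv : v ≠ 0) (a : k) (h : M *ᵥ v = a • v) : ‖a‖ ≤ mnorm M := by
  have h1 := unb_mulVec_le M v
  rw [h, norm_smul] at h1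
  exact le_of_mul_le_mul_right h1 (norm_pos_iff.mpr hv)

theorem unb_pow {k : Type*} [NormedField k] {m : ℕ} (M : Matrix (Fin m) (Fin m) k)
    (v : Fin m → k) (a : k) (h : M *ᵥ v = a • v) (n : ℕ) : (M ^ n) *ᵥ v = a ^ n • v := by
  induction n with
  | zero => simp
  | succ n ih =>
    rw [pow_succ, ← Matrix.mulVec_mulVec, h, Matrix.mulVec_smul, ih, smul_smul, pow_succ, mul_comm]

theorem unb_inv {k : Type*} [NormedField k] {m : ℕ} (g : GL (Fin m) k)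
    (v : Fin m → k) (hv : v ≠ 0) (a : k) (h : g.1 *ᵥ v = a • v) :
    a ≠ 0 ∧ (g⁻¹ : GL (Fin m) k).1 *ᵥ v = a⁻¹ • v := by
  have h1 : (g⁻¹ : GL (Fin m) k).1 *ᵥ (g.1 *ᵥ v) = v := by
    rw [Matrix.mulVec_mulVec, ← Matrix.GeneralLinearGroup.coe_mul, inv_mul_cancel]
    simp
  have ha : a ≠ 0 := by
    rintro rfl
    rw [h, zero_smul, Matrix.mulVec_zero] at h1
    exact hv h1.symm
  refine ⟨ha, ?_⟩
  rw [h, Matrix.mulVec_smul] at h1
  rw [eq_inv_smul_iff₀ ha]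
  exact h1

theorem unb_root {k : Type*} [NormedField k] {m : ℕ} (M : Matrix (Fin m) (Fin m) k) (a : k)
    (ha : M.charpoly.IsRoot a) : ∃ v : Fin m → k, v ≠ 0 ∧ M *ᵥ v = a • v := by
  rw [Polynomial.IsRoot.def, Matrix.eval_charpoly, ← Matrix.exists_mulVec_eq_zero_iff] at ha
  obtain ⟨v, hv, h⟩ := ha
  refine ⟨v, hv, ?_⟩
  rw [Matrix.sub_mulVec, sub_eq_zero] at h
  rw [← h]
  ext i
  simp [Matrix.scalar_apply, Matrix.mulVec_diagonal]

theorem unb_gl_pow {k : Type*} [NormedField k] {m : ℕ} (g : GL (Fin m) k) (n : ℕ) :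
    (g ^ n).1 = g.1 ^ n := by
  simp

theorem unb_aux {k : Type*} [NormedField k] (m : ℕ) (t : GL (Fin m) k) (a b : k)
    (ha : t.1.charpoly.IsRoot a) (hb : t.1.charpoly.IsRoot b) (hab : ‖b‖ < ‖a‖) : Unb t := by
  obtain ⟨v, hv, hva⟩ := unb_root _ a ha
  obtain ⟨w, hw, hwb⟩ := unb_root _ b hb
  obtain ⟨hb0, hwi⟩ := unb_inv t w hw b hwb
  have hbn : 0 < ‖b‖ := norm_pos_iff.mpr hb0
  intro C
  have h1 : 1 < ‖a‖ / ‖b‖ := (one_lt_div hbn).mpr hab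
  obtain ⟨n, hn⟩ := pow_unbounded_of_one_lt C h1
  refine ⟨n, hn.trans_le ?_⟩
  have h2 : ‖a ^ n‖ ≤ mnorm (t ^ n).1 := by
    refine unb_eig _ v hv _ ?_
    rw [unb_gl_pow]
    exact unb_pow _ v a hva n
  have h3 : ‖b⁻¹ ^ n‖ ≤ mnorm ((t ^ n)⁻¹ : GL (Fin m) k).1 := by
    refine unb_eig _ w hw _ ?_
    rw [← inv_pow, unb_gl_pow]
    exact unb_pow _ w b⁻¹ hwi n
  calc (‖a‖ / ‖b‖) ^ n = ‖a ^ n‖ * ‖b⁻¹ ^ n‖ := by
        rw [norm_pow, norm_pow, norm_inv, ← mul_pow, div_eq_mul_inv]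
    _ ≤ _ := mul_le_mul h2 h3 (norm_nonneg _) (unb_mnorm_nonneg _)

/-- eigenvalues of different size -/
theorem UNB1 {k : Type*} [NormedField k] (m : ℕ) (t : GL (Fin m) k) (a b : k)
    (ha : t.1.charpoly.IsRoot a) (hb : t.1.charpoly.IsRoot b) (hab : ‖a‖ ≠ ‖b‖) : Unb t := by
  rcases lt_or_gt_of_ne hab with h | h
  · exact unb_aux m t b a hb ha h
  · exact unb_aux m t a b ha hb h

theorem unb_nil {m : ℕ} (N : Matrix (Fin m) (Fin m) ℂ) (hN : IsNilpotent N) (h0 : N ≠ 0) :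
    ∃ x : Fin m → ℂ, N *ᵥ x ≠ 0 ∧ N *ᵥ (N *ᵥ x) = 0 := by
  classical
  let K := Nat.find hN
  have hK : N ^ K = 0 := Nat.find_spec hN
  have hK0 : K ≠ 0 := by
    intro h
    rw [h, pow_zero] at hK
    apply h0
    rw [← mul_one N, hK, mul_zero]
  have hK1 : K ≠ 1 := by
    intro h
    rw [h, pow_one] at hK
    exact h0 hK
  obtain ⟨j, hj⟩ : ∃ j, K = j + 2 := ⟨K - 2, by omega⟩
  have h1 : N ^ (j + 1) ≠ 0 := Nat.find_min hN (m := j + 1) (by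
    change j + 1 < K
    omega)
  obtain ⟨w, hw⟩ : ∃ w, N ^ (j + 1) *ᵥ w ≠ 0 := by
    by_contra h
    push Not at h
    apply h1
    ext i l
    have := congrFun (h (Pi.single l 1)) i
    simpa using this
  refine ⟨N ^ j *ᵥ w, ?_, ?_⟩
  · rw [Matrix.mulVec_mulVec, ← pow_succ']
    exact hw
  · have h2 : N * (N * N ^ j) = 0 := by rw [← pow_succ', ← pow_succ', ← hK, hj]
    rw [Matrix.mulVec_mulVec, Matrix.mulVec_mulVec, mul_assoc, h2, Matrix.zero_mulVec]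

theorem unb_one_add {m : ℕ} (N : Matrix (Fin m) (Fin m) ℂ) (x : Fin m → ℂ)
    (h : N *ᵥ (N *ᵥ x) = 0) (j : ℕ) : (1 + N) ^ j *ᵥ x = x + (j : ℂ) • (N *ᵥ x) := by
  induction j with
  | zero => simp
  | succ j ih =>
    rw [pow_succ', ← Matrix.mulVec_mulVec, ih, Matrix.add_mulVec, Matrix.one_mulVec,
      Matrix.mulVec_add, Matrix.mulVec_smul, h, smul_zero, add_zero]
    push_cast
    rw [add_smul, one_smul]
    abel

/-- unipotent elements -/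
theorem UNB2 (m : ℕ) (t : GL (Fin m) ℂ) (q : ℕ) (hq : 1 ≤ q) (c : ℂ)
    (hnil : IsNilpotent ((t ^ q).1 - Matrix.scalar (Fin m) c))
    (hne : (t ^ q).1 ≠ Matrix.scalar (Fin m) c) : Unb t := by
  classical
  set M := (t ^ q).1 - Matrix.scalar (Fin m) c with hM
  have hM0 : M ≠ 0 := sub_ne_zero.mpr hne
  obtain ⟨x, hx1, hx2⟩ := unb_nil M hnil hM0
  have hs : ∀ y : Fin m → ℂ, (Matrix.scalar (Fin m) c) *ᵥ y = c • y := by
    intro y
    ext i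
    simp [Matrix.scalar_apply, Matrix.mulVec_diagonal]
  -- `y = M x` is an eigenvector of `t ^ q`
  set y := M *ᵥ x with hy
  have hty : (t ^ q).1 *ᵥ y = c • y := by
    have : (t ^ q).1 = M + Matrix.scalar (Fin m) c := by rw [hM, sub_add_cancel]
    rw [this, Matrix.add_mulVec, hx2, zero_add, hs]
  obtain ⟨hc0, hinv⟩ := unb_inv (t ^ q) y hx1 c hty
  have hcn : 0 < ‖c‖ := norm_pos_iff.mpr hc0
  let N := c⁻¹ • M
  have hu : (t ^ q).1 = c • (1 + N) := by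
    have h1 : (Matrix.scalar (Fin m) c : Matrix (Fin m) (Fin m) ℂ) = c • 1 := by
      rw [Matrix.scalar_apply, Matrix.smul_one_eq_diagonal]
    have : (t ^ q).1 = M + Matrix.scalar (Fin m) c := by rw [hM, sub_add_cancel]
    rw [this, smul_add, smul_smul, mul_inv_cancel₀ hc0, one_smul, h1, add_comm]
  have hNN : N *ᵥ (N *ᵥ x) = 0 := by
    simp only [N]
    rw [Matrix.smul_mulVec, Matrix.smul_mulVec, Matrix.mulVec_smul, hx2, smul_zero, smul_zero]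
  have hNx : N *ᵥ x ≠ 0 := by
    simp only [N]
    rw [Matrix.smul_mulVec]
    exact smul_ne_zero (inv_ne_zero hc0) hx1
  have hx0 : x ≠ 0 := by
    rintro rfl
    exact hx1 (by rw [hy, Matrix.mulVec_zero])
  have hxn : 0 < ‖x‖ := norm_pos_iff.mpr hx0
  have hNn : 0 < ‖N *ᵥ x‖ := norm_pos_iff.mpr hNx
  intro C
  obtain ⟨j, hj⟩ := exists_nat_gt ((C * ‖x‖ + ‖x‖) / ‖N *ᵥ x‖)
  rw [div_lt_iff₀ hNn] at hj
  refine ⟨q * j, ?_⟩
  have h1 : ‖c‖ ^ j * C < mnorm (t ^ (q * j)).1 := by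
    have h2 := unb_mulVec_le (t ^ (q * j)).1 x
    have h3 : (t ^ (q * j)).1 *ᵥ x = c ^ j • (x + (j : ℂ) • (N *ᵥ x)) := by
      rw [pow_mul, unb_gl_pow, hu, smul_pow, Matrix.smul_mulVec, unb_one_add N x hNN]
    have h4 : (j : ℝ) * ‖N *ᵥ x‖ - ‖x‖ ≤ ‖x + (j : ℂ) • (N *ᵥ x)‖ := by
      have h5 := norm_sub_norm_le ((j : ℂ) • (N *ᵥ x)) (-x)
      rw [norm_neg, norm_smul, Complex.norm_natCast, sub_neg_eq_add, add_comm _ x] at h5
      exact h5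
    rw [h3, norm_smul, norm_pow] at h2
    have h6 : C * ‖x‖ < ‖x + (j : ℂ) • (N *ᵥ x)‖ := by linarith
    have h7 : ‖c‖ ^ j * (C * ‖x‖) < mnorm (t ^ (q * j)).1 * ‖x‖ :=
      lt_of_lt_of_le (mul_lt_mul_of_pos_left h6 (pow_pos hcn j)) h2
    rw [← mul_assoc] at h7
    exact lt_of_mul_lt_mul_right h7 hxn.le
  have h8 : (‖c‖ ^ j)⁻¹ ≤ mnorm ((t ^ (q * j))⁻¹ : GL (Fin m) ℂ).1 := by
    have h9 := unb_eig ((t ^ (q * j))⁻¹ : GL (Fin m) ℂ).1 y hx1 (c⁻¹ ^ j) (by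
      rw [pow_mul, ← inv_pow, unb_gl_pow]
      exact unb_pow _ y c⁻¹ hinv j)
    rwa [norm_pow, norm_inv, inv_pow] at h9
  have h10 : 0 < ‖c‖ ^ j := pow_pos hcn j
  rcases le_or_gt C 0 with hC | hC
  · refine lt_of_le_of_lt hC ?_
    refine mul_pos ?_ (lt_of_lt_of_le (inv_pos.mpr h10) h8)
    refine lt_of_lt_of_le (norm_pos_iff.mpr (pow_ne_zero j hc0)) (unb_eig _ y hx1 (c ^ j) ?_)
    rw [pow_mul, unb_gl_pow]
    exact unb_pow _ y c hty j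
  · calc C = (‖c‖ ^ j * C) * (‖c‖ ^ j)⁻¹ := by field_simp
      _ < mnorm (t ^ (q * j)).1 * (‖c‖ ^ j)⁻¹ := by
          exact mul_lt_mul_of_pos_right h1 (inv_pos.mpr h10)
      _ ≤ _ := mul_le_mul_of_nonneg_left h8 (unb_mnorm_nonneg _)

end Pool.Agent.Helper97.Lin
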